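import Pool.Agent.W670.ML.Parts2

/-!
# MP_af4c59_nt: the upper half of Malle's weak conjecture over ℚ implies a bound which is uniform
over all number fields
-/

set_option autoImplicit false

namespace Pool.Agent.Results.MP_af4c59_nt.UniformBaseChange

open Pool.Agent.W670.ML

/-- The upper half of Malle's weak conjecture over `ℚ` (all groups), the same over all number
fields, and the bound `c |d_K| ^ ε X ^ (a(G) + ε)` with `c` depending only on `[K : ℚ]`, `G`, `ε`
are equivalent. -/
theorem result : List.TFAE [Upper ℚ, ∀ (K : Type) [Field K] [NumberField K], Upper K,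
    StrongUniform] := by
  tfae_have 1 → 3 := fun h => fn (bd h)
  tfae_have 3 → 2 := fun h => al h
  tfae_have 2 → 1 := fun h => h ℚ
  tfae_finish

end Pool.Agent.Results.MP_af4c59_nt.UniformBaseChange
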